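import Pool.Agent.X263.PB.Main

/-!
The absolute `p`-extendability constants of metric spaces with at most `n ≥ 3` points tend to
infinity as `p` tends to `0`. The space is `{0, 1, 3} ⊂ ℝ`: for small `p` a Lipschitz map from the
interval to the free `p`-Banach space over `{0, 1, 3}` extending the canonical one must jump from
one vertex to another.
-/

set_option autoImplicit false

namespace Pool.Agent.Results.MP_4d6431_an.Divergence

open Pool.Agent.X263.PB Filter
open scoped ENNReal Topology

/-- `lim_{p → 0} ae_p(n) = ∞` for every `n ≥ 3`. -/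
theorem result (n : ℕ) (hn : 3 ≤ n) : Tendsto (fun p : ℝ => aeN p n) (𝓝[>] 0) (𝓝 ⊤) := by
  refine tendsto_nhds_top_mono tendsto_ae (Eventually.of_forall fun p => ?_)
  have hfin : Finite T := Nat.finite_of_card_ne_zero (by rw [card_T]; norm_num)
  exact le_iSup_of_le T (le_iSup_of_le inferInstance (le_iSup_of_le ⟨⟨0, by simp⟩⟩
    (le_iSup_of_le hfin (le_iSup_of_le (by rw [card_T]; exact hn) le_rfl))))

end Pool.Agent.Results.MP_4d6431_an.Divergence
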